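import Pool.Agent.C2.Stmts

/-!
# Row NQS of the squad C2M: the number of skew configurations
-/

namespace Pool.Agent.C2.H76

open Finset Pool.Agent.C2

theorem sum_card_comm {A B : Type} [Fintype A] [Fintype B] (P : A → B → Prop) :
    ∑ a : A, Nat.card {b : B // P a b} = ∑ b : B, Nat.card {a : A // P a b} := by
  rw [← Nat.card_sigma, ← Nat.card_sigma]
  exact Nat.card_congr
    { toFun := fun x => ⟨x.2.1, ⟨x.1, x.2.2⟩⟩
      invFun := fun x => ⟨x.2.1, ⟨x.1, x.2.2⟩⟩
      left_inv := fun x => rfl
      right_inv := fun x => rfl }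

theorem card_cube {V F : Type} (P : (V → F) → Prop) :
    Nat.card {u : V → Fin 3 → F // ∀ i, P (fun v => u v i)} =
      Nat.card {u : V → F // P u} ^ 3 := by
  have h : Nat.card (Fin 3 → {u : V → F // P u}) = Nat.card {u : V → F // P u} ^ 3 := by
    rw [Nat.card_fun]
    simp
  rw [← h]
  exact Nat.card_congr
    { toFun := fun u i => ⟨fun v => u.1 v i, u.2 i⟩
      invFun := fun g => ⟨fun v i => (g i).1 v, fun i => (g i).2⟩
      left_inv := fun u => rfl
      right_inv := fun g => rfl }

theorem skew_eq {F V E : Type} [Field F] [Fintype F] [Fintype V] [DecidableEq V]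
    (s t : E → V) :
    skew F s t = ∑ u : V → Fin 3 → F, Nat.card {z : V × Fin 3 → F //
      (∀ v, ∑ i, u v i * z (v, i) = 0) ∧
      ∀ e, ∑ i, (u (s e) i * z (t e, i) + u (t e) i * z (s e, i)) ≠ 0} := by
  classical
  rw [← Nat.card_sigma]
  exact Nat.card_congr
    { toFun := fun Y => ⟨fun v => (Y.1 v).1, ⟨fun y => (Y.1 y.1).2 y.2, Y.2⟩⟩
      invFun := fun x => ⟨fun v => (x.1 v, fun i => x.2.1 (v, i)), x.2.2⟩
      left_inv := fun Y => rfl
      right_inv := fun x => rfl }

theorem sum_one {F V : Type} [Field F] [Fintype V] [DecidableEq V] (v : V)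
    (c : Fin 3 → F) (z : V × Fin 3 → F) :
    ∑ y : V × Fin 3, (if v = y.1 then c y.2 else 0) * z y = ∑ i, c i * z (v, i) := by
  rw [Fintype.sum_prod_type, Finset.sum_comm]
  refine Finset.sum_congr rfl fun i _ => ?_
  simp [ite_mul]

/-- NQS. -/
theorem nqs (hKDW : KdwStmt) : NqsStmt := by
  intro F _ _ _ V E _ _ _ _ s t hcard
  classical
  have hq : (Fintype.card F : ℤ) ≠ 0 := by exact_mod_cast Fintype.card_ne_zero
  have h1 : ∀ u : V → Fin 3 → F,
      ∑ b : E → F, wt b * (Nat.card {d : V → F // ∀ i, ∀ w,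
        Lap s t b d (fun v => u v i) w = 0} : ℤ) =
      (Nat.card {z : V × Fin 3 → F // (∀ v, ∑ i, u v i * z (v, i) = 0) ∧
        ∀ e, ∑ i, (u (s e) i * z (t e, i) + u (t e) i * z (s e, i)) ≠ 0} : ℤ) := by
    intro u
    have h := hKDW F E V (V × Fin 3)
      (fun e y => (if t e = y.1 then u (s e) y.2 else 0) + (if s e = y.1 then u (t e) y.2 else 0))
      (fun v y => if v = y.1 then u v y.2 else 0)
    have hc : Fintype.card (V × Fin 3) = Fintype.card E + Fintype.card V := by
      rw [Fintype.card_prod, Fintype.card_fin, hcard]; ring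
    rw [hc] at h
    have h' := mul_left_cancel₀ (pow_ne_zero _ hq) h
    have e1 : ∀ b : E → F, Nat.card {x : V → F // ∀ y : V × Fin 3,
        ∑ n, b n * ((if t n = y.1 then u (s n) y.2 else 0) +
          (if s n = y.1 then u (t n) y.2 else 0)) +
        ∑ i, x i * (if i = y.1 then u i y.2 else 0) = 0} =
        Nat.card {d : V → F // ∀ i, ∀ w, Lap s t b d (fun v => u v i) w = 0} := by
      intro b
      refine Nat.card_congr (Equiv.subtypeEquivRight fun x => ?_)
      have e2 : ∀ (w : V) (i : Fin 3), ∑ n, b n * ((if t n = w then u (s n) i else 0) +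
          (if s n = w then u (t n) i else 0)) + ∑ j, x j * (if j = w then u j i else 0) =
          Lap s t b x (fun v => u v i) w := by
        intro w i
        have e3 : ∑ j, x j * (if j = w then u j i else 0) = x w * u w i := by
          simp [mul_ite]
        rw [e3, add_comm]
        unfold Lap
        congr 1
        refine Finset.sum_congr rfl fun n _ => ?_
        rw [add_comm]
      constructor
      · intro hx i w
        rw [← e2]
        exact hx (w, i)
      · intro hx y
        rw [e2]
        exact hx y.2 y.1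
    have e4 : Nat.card {z : V × Fin 3 → F //
        (∀ i : V, ∑ y : V × Fin 3, (if i = y.1 then u i y.2 else 0) * z y = 0) ∧
        ∀ n : E, ∑ y : V × Fin 3, ((if t n = y.1 then u (s n) y.2 else 0) +
          (if s n = y.1 then u (t n) y.2 else 0)) * z y ≠ 0} =
        Nat.card {z : V × Fin 3 → F // (∀ v, ∑ i, u v i * z (v, i) = 0) ∧
        ∀ e, ∑ i, (u (s e) i * z (t e, i) + u (t e) i * z (s e, i)) ≠ 0} := by
      refine Nat.card_congr (Equiv.subtypeEquivRight fun z => ?_)
      have e5 : ∀ n : E, ∑ y : V × Fin 3, ((if t n = y.1 then u (s n) y.2 else 0) +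
          (if s n = y.1 then u (t n) y.2 else 0)) * z y =
          ∑ i, (u (s n) i * z (t n, i) + u (t n) i * z (s n, i)) := by
        intro n
        simp only [add_mul]
        rw [Finset.sum_add_distrib, Finset.sum_add_distrib]
        rw [sum_one (t n) (fun i => u (s n) i) z, sum_one (s n) (fun i => u (t n) i) z]
      have e6 : ∀ v : V, ∑ y : V × Fin 3, (if v = y.1 then u v y.2 else 0) * z y =
          ∑ i, u v i * z (v, i) := fun v => sum_one v (fun i => u v i) z
      simp only [e5, e6]
    rw [← e4, ← h']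
    refine Finset.sum_congr rfl fun b _ => ?_
    rw [e1 b]
  have h2 : ∀ b : E → F, ∑ u : V → Fin 3 → F, Nat.card {d : V → F // ∀ i, ∀ w,
      Lap s t b d (fun v => u v i) w = 0} = ∑ d : V → F, kerL s t b d ^ 3 := by
    intro b
    rw [sum_card_comm]
    refine Finset.sum_congr rfl fun d _ => ?_
    exact card_cube (fun u : V → F => ∀ w, Lap s t b d u w = 0)
  rw [skew_eq]
  push_cast
  rw [← Finset.sum_congr rfl fun u _ => h1 u]
  rw [Finset.sum_comm]
  unfold S3
  refine Finset.sum_congr rfl fun b _ => ?_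
  rw [← Finset.mul_sum, ← Finset.mul_sum]
  congr 1
  have h3 := h2 b
  exact_mod_cast h3.symm

end Pool.Agent.C2.H76
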